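import Pool.Agent.Helper74.DI.StM

/-! Project DI (MP_26f0da_lc, owner helper74), module STN: the next modulus. -/

set_option autoImplicit false

namespace Pool.Agent.Helper7.DI

open Pool.Agent.Helper74 Pool.Agent.Helper74.DI

private lemma head_val (o : Bool → Bool) (μ : ℕ) (e : Bool) :
    (cf .nx e o 0 (fun _ => 0) 0 μ).2 (.R true (!o true)) = μ := by
  simp [cf]

theorem hSTN : StSTN := by
  intro w e o μ
  refine ⟨fun h => ?_, fun h => ?_, ?_⟩
  · have hd : dm (cf .nx e o 0 (fun _ => 0) 0 μ).1
        (fun j => (decide ((cf .nx e o 0 (fun _ => 0) 0 μ).2 j = 0),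
          w[(cf .nx e o 0 (fun _ => 0) 0 μ).2 j - 1]?)) = ((.ac, e, o), fun _ => 1) := by
      have h1 : decide (μ = 0) = false := by simp; omega
      have h2 : w[μ - 1]? = none := by
        rw [List.getElem?_eq_none_iff]
        omega
      have h3 := head_val o μ e
      simp only [cf, dm] at h3 ⊢
      simp only [h3, h1, h2]
      rfl
    unfold sth
    rw [hd]
    refine Prod.ext rfl (funext fun i => ?_)
    simp only [cf]
    cases i <;> simp
  · have hd : dm (cf .nx e o 0 (fun _ => 0) 0 μ).1
        (fun j => (decide ((cf .nx e o 0 (fun _ => 0) 0 μ).2 j = 0),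
          w[(cf .nx e o 0 (fun _ => 0) 0 μ).2 j - 1]?)) =
        ((.rs, e, o), mk 1 (fun r c => if c = o r then 1 else 2) (fun c => if c then 1 else 2)) := by
      have h3 := head_val o μ e
      have h4 : (!(decide (μ = 0)) && (w[μ - 1]?).isNone) = false := by
        rcases Nat.eq_zero_or_pos μ with h0 | h0
        · simp [h0]
        · have : μ - 1 < w.length := by omega
          simp [this]
      simp only [cf, dm] at h3 ⊢
      simp only [h3, h4]
      rfl
    unfold sth
    rw [hd]
    refine Prod.ext rfl (funext fun i => ?_)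
    simp only [cf]
    cases i with
    | J => simp [mk]
    | R r c =>
      by_cases hc : c = o r
      · simp [mk, hc]
      · have hle : μ + 1 ≤ w.length + 1 := by omega
        simp [mk, hc]
        omega
    | T c =>
      cases c
      · simp [mk]
        omega
      · simp [mk]
  · rintro ⟨⟨lo, e, o⟩, hh⟩ hc
    rcases hc with hc | hc <;> simp only at hc <;> subst hc <;> rfl

end Pool.Agent.Helper7.DI
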